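import Pool.Agent.H46.RF.Stm

/-!
Crew RF, part BIG: `Half` by counting words.
-/

set_option autoImplicit false

namespace H98.RF

open ZFSet (pair)
open Pool.Agent.W868
open MeasureTheory H14.ES H46.RF
open scoped ENNReal

/-- extend a word by `false` -/
def ex {m : ℕ} (w : Fin m → Bool) : ℕ → Bool := fun i => if h : i < m then w ⟨i, h⟩ else false

/-- restrict to a word -/
def rst (m : ℕ) (x : ℕ → Bool) : Fin m → Bool := fun i => x i

lemma ex_lt {m : ℕ} (w : Fin m → Bool) (i : Fin m) : ex w i = w i := by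
  simp [ex]

lemma rst_ex {m : ℕ} (w : Fin m → Bool) : rst m (ex w) = w := by
  funext i
  exact ex_lt w i

lemma ex_rst {m : ℕ} (x : ℕ → Bool) : ∀ i < m, ex (rst m x) i = x i := by
  intro i hi
  simp [ex, rst, hi]

lemma measure_level (hB : S_BMS) (m : ℕ) (F : Finset (Fin m → Bool)) :
    mu ℕ {x | rst m x ∈ F} = F.card * ((2 : ℝ≥0∞) ^ m)⁻¹ := by
  obtain ⟨-, -, -, -, -, hc1, hc2⟩ := hB
  have h1 : {x | rst m x ∈ F} = ⋃ w ∈ F, cyl (ex w) m := by
    ext x
    simp only [Set.mem_ofPred_eq, Set.mem_iUnion, exists_prop]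
    constructor
    · intro h
      refine ⟨rst m x, h, fun i hi => ?_⟩
      exact (ex_rst x i hi).symm
    · rintro ⟨w, hw, hx⟩
      have : rst m x = w := by
        funext i
        have := hx i i.2
        rw [ex_lt] at this
        exact this
      rwa [this]
  have h2 : (F : Set (Fin m → Bool)).PairwiseDisjoint fun w => cyl (ex w) m := by
    intro w _ w' _ hne
    rw [Function.onFun, Set.disjoint_left]
    intro x hx hx'
    apply hne
    funext i
    have h3 := hx i i.2
    have h4 := hx' i i.2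
    rw [ex_lt] at h3 h4
    rw [← h3, ← h4]
  rw [h1, measure_biUnion_finset h2 fun w _ => hc1 _ _]
  simp only [hc2]
  rw [Finset.sum_const, nsmul_eq_mul]

theorem big (hW : S_WRD) (hB : S_BMS) : S_BIG := by
  classical
  intro M hM T r k m hkm
  obtain ⟨-, -, hinj, -, -, hWM⟩ := hW
  obtain ⟨hiniM, -, -, -⟩ := hWM M hM
  have hlev : ∀ x x' : ℕ → Bool, (∀ i < m, x i = x' i) → (x ∈ lev T m ↔ x' ∈ lev T m) :=
    hB.2.2.2.2.1 T m
  let C : Finset (Fin m → Bool) := Finset.univ.filter fun w => ∀ i : Fin m, i.1 < k → w i = r i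
  let A : Finset (Fin m → Bool) := C.filter fun w => ini (ex w) m ∈ T
  let B : Finset (Fin m → Bool) := C.filter fun w => ¬ ini (ex w) m ∈ T
  have hcyl : cyl r k = {x | rst m x ∈ C} := by
    ext x
    simp only [C, Set.mem_ofPred_eq, Finset.mem_filter, Finset.mem_univ, true_and]
    constructor
    · intro h i hi
      exact h i hi
    · intro h i hi
      exact h ⟨i, by omega⟩ hi
  have hlev2 : ∀ x, x ∈ lev T m ↔ ini (ex (rst m x)) m ∈ T := by
    intro x
    exact hlev x (ex (rst m x)) fun i hi => (ex_rst x i hi).symm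
  have hcl : cyl r k ∩ lev T m = {x | rst m x ∈ A} := by
    ext x
    rw [Set.mem_inter_iff, hlev2, hcyl]
    simp only [A, Set.mem_ofPred_eq, Finset.mem_filter]
  have hcard : A.card + B.card = C.card := Finset.card_filter_add_card_filter_not _
  have hc0 : ((2 : ℝ≥0∞) ^ m)⁻¹ ≠ 0 := by simp
  have hct : ((2 : ℝ≥0∞) ^ m)⁻¹ ≠ ∞ := by simp
  have hhalf : Half T r k m ↔ B.card ≤ A.card := by
    unfold Half
    rw [hcl, hcyl, measure_level hB, measure_level hB, ← mul_assoc,
      ENNReal.mul_le_mul_iff_left hc0 hct]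
    have : ((C.card : ℝ≥0∞) ≤ 2 * (A.card : ℝ≥0∞)) ↔ C.card ≤ 2 * A.card := by
      exact_mod_cast Iff.rfl
    rw [this]
    omega
  rw [hhalf]
  have hwin : ∀ w w' : Fin m → Bool, ini (ex w) m = ini (ex w') m → w = w' := by
    intro w w' h
    have h1 := ((hinj _ _ _ _).1 h).2
    funext i
    have := h1 i i.2
    rwa [ex_lt, ex_lt] at this
  have hxe : ∀ x : ℕ → Bool, ini x m = ini (ex (rst m x)) m := by
    intro x
    rw [hinj]
    exact ⟨rfl, fun i hi => (ex_rst x i hi).symm⟩
  constructor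
  · intro h
    obtain ⟨g, hgA, hg⟩ : ∃ g : (Fin m → Bool) → (Fin m → Bool), (∀ w ∈ B, g w ∈ A) ∧
        Set.InjOn g B := by
      have h1 : Fintype.card B ≤ Fintype.card A := by simpa using h
      obtain ⟨e⟩ := Function.Embedding.nonempty_of_card_le h1
      refine ⟨fun w => if hw : w ∈ B then (e ⟨w, hw⟩).1 else w, ?_, ?_⟩
      · intro w hw
        simp only [hw, dif_pos]
        exact (e ⟨w, hw⟩).2
      · intro w hw w' hw' hww
        have hw1 : w ∈ B := hw
        have hw2 : w' ∈ B := hw'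
        simp only [hw1, hw2, dif_pos] at hww
        have := e.injective (Subtype.ext hww)
        exact congrArg Subtype.val this
    have hf : ∀ F : Finset (Fin m → Bool), ∃ f ∈ M, ∀ z, z ∈ f ↔
        ∃ w ∈ F, z = pair (ini (ex w) m) (ini (ex (g w)) m) := by
      intro F
      induction F using Finset.induction_on with
      | empty => exact ⟨∅, hM.empty_mem, fun z => by simp⟩
      | insert a s _ ih =>
        obtain ⟨f, hfM, hf⟩ := ih
        refine ⟨insert (pair (ini (ex a) m) (ini (ex (g a)) m)) f,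
          hM.insert_mem (hM.pair_mem (hiniM _ _) (hiniM _ _)) hfM, fun z => ?_⟩
        rw [ZFSet.mem_insert_iff, hf]
        simp only [Finset.mem_insert]
        constructor
        · rintro (h1 | ⟨w, h1, h2⟩)
          · exact ⟨a, Or.inl rfl, h1⟩
          · exact ⟨w, Or.inr h1, h2⟩
        · rintro ⟨w, rfl | h1, h2⟩
          · exact Or.inl h2
          · exact Or.inr ⟨w, h1, h2⟩
    obtain ⟨f, hfM, hf⟩ := hf B
    refine ⟨f, hfM, ?_, ?_⟩
    · intro x hx hxT
      have hB' : rst m x ∈ B := by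
        refine Finset.mem_filter.2 ⟨?_, ?_⟩
        · have : x ∈ {x | rst m x ∈ C} := hcyl ▸ hx
          exact this
        · rw [← hxe]
          exact hxT
      have hA := Finset.mem_filter.1 (hgA _ hB')
      refine ⟨ex (g (rst m x)), ?_, hA.2, ?_⟩
      · rw [hcyl]
        show rst m (ex (g (rst m x))) ∈ C
        rw [rst_ex]
        exact hA.1
      · rw [hf]
        refine ⟨rst m x, hB', ?_⟩
        rw [← hxe]
    · intro a a' b h1 h2
      obtain ⟨w, hw, e1⟩ := (hf _).1 h1
      obtain ⟨w', hw', e2⟩ := (hf _).1 h2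
      obtain ⟨rfl, rfl⟩ := ZFSet.pair_inj.1 e1
      obtain ⟨rfl, e3⟩ := ZFSet.pair_inj.1 e2
      have : w = w' := hg hw hw' (hwin _ _ e3)
      rw [this]
  · rintro ⟨f, -, h1, h2⟩
    have key : ∀ w ∈ B, ∃ v ∈ A, pair (ini (ex w) m) (ini (ex v) m) ∈ f := by
      intro w hw
      obtain ⟨hwC, hwT⟩ := Finset.mem_filter.1 hw
      have hx : ex w ∈ cyl r k := by
        rw [hcyl]
        show rst m (ex w) ∈ C
        rwa [rst_ex]
      obtain ⟨y, hy, hyT, hyf⟩ := h1 (ex w) hx hwT
      refine ⟨rst m y, Finset.mem_filter.2 ⟨?_, ?_⟩, ?_⟩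
      · have : y ∈ {x | rst m x ∈ C} := hcyl ▸ hy
        exact this
      · rw [← hxe]
        exact hyT
      · rw [← hxe y]
        exact hyf
    choose! g hgA hgf using key
    refine Finset.card_le_card_of_injOn g hgA ?_
    intro w hw w' hw' hww
    have e1 := hgf w hw
    have e2 := hgf w' hw'
    rw [← hww] at e2
    exact hwin _ _ (h2 _ _ _ e1 e2)

end H98.RF
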