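import Pool.Agent.H46.RF.Stm

/-!
Crew RF, part TST: the test tree is in the model.
-/

set_option autoImplicit false
set_option linter.unreachableTactic false
set_option linter.unusedTactic false

namespace H98.RF

open ZFSet (pair)
open Pool.Agent.W868
open MeasureTheory H14.ES H46.RF

lemma mem_nat' {x : ZFSet.{0}} {m : ℕ} : x ∈ nat m ↔ ∃ j < m, x = nat j := by
  induction m with
  | zero => simp [nat]
  | succ m ih =>
    rw [nat, ZFSet.mem_insert_iff, ih]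
    constructor
    · rintro (rfl | ⟨j, hj, rfl⟩)
      · exact ⟨m, Nat.lt_succ_self m, rfl⟩
      · exact ⟨j, by omega, rfl⟩
    · rintro ⟨j, hj, rfl⟩
      rcases Nat.lt_succ_iff_lt_or_eq.1 hj with h | rfl
      · exact Or.inr ⟨j, h, rfl⟩
      · exact Or.inl rfl

lemma nat_sub {k m : ℕ} : nat k ⊆ nat m ↔ k ≤ m := by
  constructor
  · intro h
    by_contra hlt
    have h1 : nat m ∈ nat k := mem_nat'.2 ⟨m, by omega, rfl⟩
    obtain ⟨j, hj, h2⟩ := mem_nat'.1 (h h1)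
    have := nat_injective h2
    omega
  · intro h x hx
    obtain ⟨j, hj, rfl⟩ := mem_nat'.1 hx
    exact mem_nat'.2 ⟨j, by omega, rfl⟩

/-- the set theoretic version of `Half` -/
def HalfZ (M : Set ZFSet.{0}) (Wd Ln T y m : ZFSet.{0}) : Prop :=
  ∃ f ∈ M, (∀ x ∈ Wd, pair x m ∈ Ln → y ⊆ x → ¬ x ∈ T → ∃ x' ∈ Wd, pair x' m ∈ Ln ∧ y ⊆ x' ∧
    x' ∈ T ∧ pair x x' ∈ f) ∧
    ∀ a ∈ M, ∀ a' ∈ M, ∀ b ∈ M, pair a b ∈ f → pair a' b ∈ f → a = a'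

/-- the set theoretic version of the test -/
def Test (M : Set ZFSet.{0}) (Wd Ln D a s z : ZFSet.{0}) : Prop :=
  (z ⊆ a ∨ a ⊆ z) ∧ ∀ k ∈ (ZFSet.omega : ZFSet.{0}), ∀ y ∈ Wd, pair y k ∈ Ln → y ⊆ z → s ⊆ k →
    ¬ ∃ T ∈ D, ∀ m ∈ (ZFSet.omega : ZFSet.{0}), k ⊆ m → HalfZ M Wd Ln T y m

lemma dfn_test {M : Set ZFSet.{0}} (hM : IsZF M) {Wd Ln D a s : ZFSet.{0}} (hWd : Wd ∈ M)
    (hLn : Ln ∈ M) (hD : D ∈ M) (ha : a ∈ M) (hs : s ∈ M) :
    Dfn M M fun w : Fin 1 → ZFSet.{0} => Test M Wd Ln D a s (w 0) := by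
  have hB := hM.base
  have hom : (ZFSet.omega : ZFSet.{0}) ∈ M := hM.infinity
  unfold Test HalfZ
  (repeat' first
      | assumption
      | exact DfnF.proj _
      | exact DfnF.const (by assumption)
      | apply Dfn.not | apply Dfn.and | apply Dfn.or | apply Dfn.imp | apply Dfn.iff
      | apply hB.bex | apply hB.ball | apply Dfn.ex | apply Dfn.all
      | apply Dfn.eq | apply Dfn.mem | apply hB.subset' | apply hB.pair')

theorem tst (hW : S_WRD) (hBig : S_BIG) : S_TST := by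
  intro M hM D hD σ s
  obtain ⟨-, -, hinj, hsub, -, hWM⟩ := hW
  obtain ⟨hiniM, -, ⟨Wd, hWdM, hWd⟩, ⟨Ln, hLnM, hLn⟩⟩ := hWM M hM
  have hLn2 : ∀ (x : ZFSet.{0}) (m : ℕ), pair x (nat m) ∈ Ln ↔ ∃ r, x = ini r m := by
    intro x m
    rw [hLn]
    constructor
    · rintro ⟨r, n, h⟩
      obtain ⟨h1, h2⟩ := ZFSet.pair_inj.1 h
      have := nat_injective h2
      subst this
      exact ⟨r, h1⟩
    · rintro ⟨r, rfl⟩
      exact ⟨r, m, rfl⟩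
  have hsubc : ∀ (r x : ℕ → Bool) (k m : ℕ), k ≤ m → (ini r k ⊆ ini x m ↔ x ∈ cyl r k) := by
    intro r x k m hkm
    rw [hsub]
    constructor
    · rintro ⟨-, h⟩ i hi
      exact (h i hi).symm
    · intro h
      exact ⟨hkm, fun i hi => (h i hi).symm⟩
  have hhalf : ∀ (T : ZFSet.{0}) (r : ℕ → Bool) (k m : ℕ), k ≤ m →
      (Half T r k m ↔ HalfZ M Wd Ln T (ini r k) (nat m)) := by
    intro T r k m hkm
    rw [hBig M hM T r k m hkm]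
    constructor
    · rintro ⟨f, hf, h1, h2⟩
      refine ⟨f, hf, ?_, fun a _ a' _ b _ => h2 a a' b⟩
      intro x _ hx hyx hxT
      obtain ⟨x0, rfl⟩ := (hLn2 x m).1 hx
      obtain ⟨y, hy, hyT, hyf⟩ := h1 x0 ((hsubc _ _ _ _ hkm).1 hyx) hxT
      exact ⟨ini y m, (hWd _).2 ⟨y, m, rfl⟩, (hLn2 _ _).2 ⟨y, rfl⟩, (hsubc _ _ _ _ hkm).2 hy, hyT,
        hyf⟩
    · rintro ⟨f, hf, h1, h2⟩
      refine ⟨f, hf, ?_, ?_⟩
      · intro x hx hxT
        obtain ⟨x', -, hx', hyx', hxT', hxf⟩ := h1 (ini x m) ((hWd _).2 ⟨x, m, rfl⟩)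
          ((hLn2 _ _).2 ⟨x, rfl⟩) ((hsubc _ _ _ _ hkm).2 hx) hxT
        obtain ⟨y, rfl⟩ := (hLn2 x' m).1 hx'
        exact ⟨y, (hsubc _ _ _ _ hkm).1 hyx', hxT', hxf⟩
      · intro a a' b hab hab'
        have e1 := hM.of_pair_mem (hM.trans _ hf _ hab)
        have e2 := hM.of_pair_mem (hM.trans _ hf _ hab')
        exact h2 a e1.1 a' e2.1 b e1.2 hab hab'
  have hbad : ∀ (r : ℕ → Bool) (k : ℕ), Bad D r k ↔
      ∃ T ∈ D, ∀ m ∈ (ZFSet.omega : ZFSet.{0}), nat k ⊆ m → HalfZ M Wd Ln T (ini r k) m := by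
    intro r k
    unfold Bad
    constructor
    · rintro ⟨T, hT, h⟩
      refine ⟨T, hT, fun m hm hkm => ?_⟩
      obtain ⟨m, rfl⟩ := mem_omega_iff.1 hm
      have hkm' := nat_sub.1 hkm
      exact (hhalf T r k m hkm').1 (h m hkm')
    · rintro ⟨T, hT, h⟩
      refine ⟨T, hT, fun m hkm => ?_⟩
      exact (hhalf T r k m hkm).2 (h (nat m) (mem_omega_iff.2 ⟨m, rfl⟩) (nat_sub.2 hkm))
  refine ⟨ZFSet.sep (fun z => Test M Wd Ln D (ini σ s) (nat s) z) Wd,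
    hM.sep_mem (dfn_test hM hWdM hLnM hD (hiniM _ _) (hM.nat_mem s)) hWdM, fun z => ?_⟩
  rw [ZFSet.mem_sep, hWd]
  constructor
  · rintro ⟨⟨r, n, rfl⟩, hc, hb⟩
    refine ⟨r, n, rfl, ?_, ?_⟩
    · intro i hin his
      rcases hc with h | h
      · exact ((hsub _ _ _ _).1 h).2 i hin
      · exact (((hsub _ _ _ _).1 h).2 i his).symm
    · intro k hsk hkn hbk
      refine hb (nat k) (mem_omega_iff.2 ⟨k, rfl⟩) (ini r k) ((hWd _).2 ⟨r, k, rfl⟩)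
        ((hLn2 _ _).2 ⟨r, rfl⟩) ((hsub _ _ _ _).2 ⟨hkn, fun _ _ => rfl⟩) (nat_sub.2 hsk) ?_
      exact (hbad r k).1 hbk
  · rintro ⟨r, n, rfl, hc, hb⟩
    refine ⟨⟨r, n, rfl⟩, ?_, ?_⟩
    · rcases le_total n s with h | h
      · exact Or.inl ((hsub _ _ _ _).2 ⟨h, fun i hi => hc i hi (by omega)⟩)
      · exact Or.inr ((hsub _ _ _ _).2 ⟨h, fun i hi => (hc i (by omega) hi).symm⟩)
    · intro k hk y _ hyk hyz hsk hbk
      obtain ⟨k, rfl⟩ := mem_omega_iff.1 hk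
      obtain ⟨r', rfl⟩ := (hLn2 _ _).1 hyk
      obtain ⟨hkn, hr⟩ := (hsub _ _ _ _).1 hyz
      have e : ini r' k = ini r k := (hinj _ _ _ _).2 ⟨rfl, hr⟩
      rw [e] at hbk
      exact hb k (nat_sub.1 hsk) hkn ((hbad r k).2 hbk)

end H98.RF
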